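import Mathlib
import Pool.Agent.Lib.MP_9ec2c5_av.Statement

/-!
The Kawaguchi-Silverman conjecture for polynomial self-maps of affine varieties all of whose
iterates have finitely many bad points at infinity, the number of which is unbounded.
-/

set_option autoImplicit false

namespace Pool.Agent.Results.MP_9ec2c5_nt.AffineVarieties

open MvPolynomial Filter Topology
open Pool.Agent.Lib.MP_9ec2c5_av
open Pool.Agent.Lib.MP_9ec2c5_gen (weilHeight)

/-- Let `V` be the zero set, in the affine space of dimension `s`, of a prime ideal `p` of
polynomials over a number field `K`, and let `F` be a polynomial map of degree at most `d ≥ 2`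
which maps `V` to itself. Suppose that for every `n` only finitely many points at infinity of the
projective closure of `V` are zeros of the leading forms of the iterate `F ^ n` (the `n`-th iterate
of the forms of degree `d` of `F`), and that infinitely many points are such zeros for some `n`; if
`V` is not a surface, suppose also that all but finitely many fibres of `F` on `V` are finite. Then
the `n`-th iterate of `F` on `V` has degree `d ^ n` for every `n`, and the `n`-th roots of the Weil
heights along every `K`-rational orbit which is Zariski dense in `V` tend to `d`. The conditions on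
the points at infinity hold if `F` has the leading forms (of degree `3`) `(X_0 - X_1) X_0 ^ 2`,
`(X_0 - X_1) X_1 ^ 2` and `X_i ^ 3` for `i ≥ 2`, and the leading forms of all elements of `p` are in
the ideal generated by the `X_i`, `i ≥ 2`. For `p = 0` the variety `V` is affine space. -/
theorem result :
    (∀ (K : Type) [Field K] [NumberField K] (s d : ℕ) (p : Ideal (MvPolynomial (Fin s) K))
      (F : Fin s → MvPolynomial (Fin s) K),
      p.IsPrime → 2 ≤ d → IsMapOn d p F → FewBadPoints d p F →
      Algebra.trdeg K (MvPolynomial (Fin s) K ⧸ p) = 2 ∨ FewInfiniteFibres p F →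
      (∀ n, iterDegOn p F n = d ^ n) ∧
      ∀ P : ℕ → Fin s → K, IsDenseOrbit p F P →
        Tendsto (fun n : ℕ => weilHeight (P n) ^ (1 / (n : ℝ))) atTop (𝓝 (d : ℝ))) ∧
    ∀ (K : Type) [Field K] [NumberField K] (m : ℕ) (p : Ideal (MvPolynomial (Fin (m + 2)) K))
      (F : Fin (m + 2) → MvPolynomial (Fin (m + 2)) K), IsExample p F → FewBadPoints 3 p F := by
  refine ⟨?_, ?_⟩
  · intro K _ _ s d p F hp hd hF hbad hfib
    exact arithmetic_degree_main d p F hp hd hF hbad hfib
  · intro K _ _ m p F h
    exact few_bad_example p F h

end Pool.Agent.Results.MP_9ec2c5_nt.AffineVarieties
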