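import Mathlib
import Pool.Agent.Lib.MP_9ec2c5_gen.Final
import Pool.Agent.Lib.MP_9ec2c5_gen.Example

/-!
The Kawaguchi-Silverman conjecture for polynomial self-maps of affine space of any dimension such
that the degrees of the coordinates below the largest one are pairwise distinct and the leading
forms are generic.
-/

set_option autoImplicit false

namespace Pool.Agent.Results.MP_9ec2c5_nt.DistinctDegrees

open MvPolynomial Filter Topology
open Pool.Agent.Lib.MP_9ec2c5_gen (Generic iterDeg weilHeight)

/-- Let `F = (F_0, .., F_m)` be a polynomial self-map of affine space of dimension `m + 1` over a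
number field `K`, with `deg F_i ≤ d_i` and `1 ≤ d_0 < .. < d_r = .. = d_m`, `2 ≤ d_r`, whose leading
forms satisfy the nondegeneracy condition `Generic`. Then the `n`-th roots of the degrees of the
iterates tend to `d_r` (the first dynamical degree), and for every Zariski dense `K`-rational orbit
`P n` the Weil heights are at least `c * d_r ^ n` for some `c > 0` and all large `n`, and their
`n`-th roots tend to `d_r`. The condition holds for example if the leading forms are `X_0 ^ d_0` and
`X_j ^ d_j - X_(j-1) ^ d_j` for `j ≥ 1`. -/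
theorem result :
    ∀ (K : Type) [Field K] [NumberField K] (m : ℕ)
      (F : Fin (m + 1) → MvPolynomial (Fin (m + 1)) K) (d : Fin (m + 1) → ℕ) (r : Fin (m + 1)),
      (∀ i j, i < j → i < r → d i < d j) → (∀ j, r ≤ j → d j = d r) → 1 ≤ d 0 → 2 ≤ d r →
      (∀ i, (F i).totalDegree ≤ d i) →
      (Generic F d r →
        Tendsto (fun n : ℕ => (iterDeg F n : ℝ) ^ (1 / (n : ℝ))) atTop (𝓝 (d r : ℝ)) ∧
        ∀ P : ℕ → Fin (m + 1) → K, (∀ n i, P (n + 1) i = eval (P n) (F i)) →
          (∀ R : MvPolynomial (Fin (m + 1)) K, (∀ n, eval (P n) R = 0) → R = 0) →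
          (∃ c : ℝ, 0 < c ∧ ∀ᶠ n in atTop, c * (d r : ℝ) ^ n ≤ weilHeight (P n)) ∧
          Tendsto (fun n : ℕ => weilHeight (P n) ^ (1 / (n : ℝ))) atTop (𝓝 (d r : ℝ))) ∧
      (homogeneousComponent (d 0) (F 0) = X 0 ^ d 0 →
        (∀ j : Fin m, homogeneousComponent (d j.succ) (F j.succ)
          = X j.succ ^ d j.succ - X j.castSucc ^ d j.succ) → Generic F d r) := by
  intro K _ _ m F d r hlt htop hd0 hdl hF
  refine ⟨fun hG => Pool.Agent.Lib.MP_9ec2c5_gen.arithmetic_degree_generic F d r hlt htop hd0 hdl
    hF hG, fun h0 h1 => ?_⟩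
  refine Pool.Agent.Lib.MP_9ec2c5_gen.generic_example F d r (fun j => ?_) h0 h1
  by_cases h : j < r
  · rcases eq_or_lt_of_le (Fin.zero_le j) with h2 | h2
    · rw [← h2]
      exact hd0
    · exact hd0.trans (hlt 0 j h2 (h2.trans h)).le
  · rw [htop j (not_lt.mp h)]
    omega

end Pool.Agent.Results.MP_9ec2c5_nt.DistinctDegrees
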