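import Mathlib
import Pool.Agent.Lib.MP_9ec2c5_sk.Full

/-!
The Kawaguchi-Silverman conjecture for all dominant polynomial skew products
`(x, y) ↦ (p(x), q(x, y))` of the affine plane.
-/

set_option autoImplicit false

namespace Pool.Agent.Results.MP_9ec2c5_nt.PolynomialSkewProducts

open Polynomial Filter Topology
open Pool.Agent.Lib.MP_9ec2c5_nt_h65 (iterDeg weilHeight)

/-- Let `f(x, y) = (p(x), q(x, y))` be a polynomial skew product over a number field `K`, where the
degree `d` of `p` and the degree `e` of `q` in `y` are at least one. The `n`-th roots of the degrees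
of the iterates of `f` tend to `max d e` (the first dynamical degree of `f` as a rational self-map of
the projective plane), and for every `K`-rational orbit `(x n, y n)` which is Zariski dense (no
nonzero polynomial vanishes on it) the `n`-th roots of the Weil heights tend to `max d e` as
well. -/
theorem result :
    ∀ (K : Type) [Field K] [NumberField K] (p : K[X]) (q : K[X][X]),
      1 ≤ p.natDegree → 1 ≤ q.natDegree →
      Tendsto (fun n : ℕ => (iterDeg p q n : ℝ) ^ (1 / (n : ℝ))) atTop
        (𝓝 ((max p.natDegree q.natDegree : ℕ) : ℝ)) ∧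
      ∀ x y : ℕ → K, (∀ n, x (n + 1) = p.eval (x n)) →
        (∀ n, y (n + 1) = q.evalEval (x n) (y n)) →
        (∀ R : K[X][X], (∀ n, R.evalEval (x n) (y n) = 0) → R = 0) →
        Tendsto (fun n : ℕ => weilHeight (x n) (y n) ^ (1 / (n : ℝ))) atTop
          (𝓝 ((max p.natDegree q.natDegree : ℕ) : ℝ)) := by
  intro K _ _ p q hd he
  exact Pool.Agent.Lib.MP_9ec2c5_sk.arithmetic_degree_all p q hd he

end Pool.Agent.Results.MP_9ec2c5_nt.PolynomialSkewProducts
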